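import Pool.Agent.H79.TAX.Defs
import Pool.Agent.H79.TAX.Proof

/-!
# Hyperbolic triangle Artin groups acting properly on CAT(0) cube complexes

Disproof of Q1 of MP_56c03d_al: for every `κ ≥ 20` the triangle Artin group `A_{4κ,4κ,4κ}` (which is
of hyperbolic type) acts properly by cubical automorphisms on a CAT(0) cube complex.
-/

namespace Pool.Agent.Results.MP_56c03d_al.ProperAction

open Pool.TAX

/-- It is not true that no triangle Artin group of hyperbolic type acts properly on a CAT(0) cube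
complex: all the groups `A_{4κ,4κ,4κ}` with `κ ≥ 20` do. -/
theorem result : (∀ κ : ℕ, 20 ≤ κ → ArtinActs (4 * κ) (4 * κ) (4 * κ)) ∧
    ¬ ∀ m n p : ℕ, 2 ≤ m → 2 ≤ n → 2 ≤ p → (1 / m + 1 / n + 1 / p : ℚ) < 1 →
      ¬ ArtinActs m n p :=
  main

end Pool.Agent.Results.MP_56c03d_al.ProperAction
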